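import Mathlib

/-!
# MP_fe8e9b_al, wreath towers: bounded differences

The bounded difference inequality for functions on the finite product `X → Ω` with the uniform
distribution, in counting form.
-/

set_option autoImplicit false

open scoped BigOperators

namespace Pool.Agent.MPfe8e9bW2

/-- One variable: a function with deviations at most `c` from its mean. -/
private theorem bd_one {Ω : Type} [Fintype Ω] [Nonempty Ω] (g : Ω → ℝ) (c : ℝ)
    (hc : ∀ a b, |g a - g b| ≤ c) (s : ℝ) :
    ∑ a, Real.exp (s * g a) ≤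
      (Fintype.card Ω : ℝ) * Real.exp (s * ((∑ a, g a) / (Fintype.card Ω : ℝ)) +
        s ^ 2 * c ^ 2 / 2) := by
  have hn : (0 : ℝ) < (Fintype.card Ω : ℝ) := by exact_mod_cast Fintype.card_pos
  set n : ℝ := (Fintype.card Ω : ℝ) with hnd
  set m : ℝ := (∑ a, g a) / n with hm
  have hsum : ∑ a, (g a - m) = 0 := by
    rw [Finset.sum_sub_distrib, Finset.sum_const, Finset.card_univ, nsmul_eq_mul, ← hnd, hm]
    field_simp
    ring
  have hdev : ∀ a, |g a - m| ≤ c := by
    intro a
    have h1 : g a - m = (∑ b, (g a - g b)) / n := by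
      rw [Finset.sum_sub_distrib, Finset.sum_const, Finset.card_univ, nsmul_eq_mul, ← hnd, hm]
      field_simp
    rw [h1, abs_div, abs_of_pos hn, div_le_iff₀ hn]
    calc |∑ b, (g a - g b)| ≤ ∑ b, |g a - g b| := Finset.abs_sum_le_sum_abs _ _
      _ ≤ ∑ _b : Ω, c := Finset.sum_le_sum fun b _ => hc a b
      _ = c * n := by rw [Finset.sum_const, Finset.card_univ, nsmul_eq_mul, ← hnd, mul_comm]
  have hc0 : 0 ≤ c := (abs_nonneg _).trans (hdev (Classical.arbitrary Ω))
  have key : ∑ a, Real.exp (s * (g a - m)) ≤ n * Real.exp (s ^ 2 * c ^ 2 / 2) := by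
    rcases hc0.eq_or_lt with h0 | h0
    · have h2 : ∀ a, g a - m = 0 := fun a => abs_nonpos_iff.1 (h0 ▸ hdev a)
      simp [h2, ← h0, hnd]
    · have h3 : ∀ a, Real.exp (s * (g a - m)) ≤
          Real.cosh (s * c) + (g a - m) / c * Real.sinh (s * c) := by
        intro a
        have h4 := abs_le.1 (hdev a)
        have hw1 : 0 ≤ (1 - (g a - m) / c) / 2 := by
          have : (g a - m) / c ≤ 1 := (div_le_one h0).2 h4.2
          linarith
        have hw2 : 0 ≤ (1 + (g a - m) / c) / 2 := by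
          have : -1 ≤ (g a - m) / c := (le_div_iff₀ h0).2 (by linarith)
          linarith
        have h5 := convexOn_exp.2 (Set.mem_univ (-(s * c))) (Set.mem_univ (s * c)) hw1 hw2
          (by ring)
        have h6 : ((1 - (g a - m) / c) / 2) • (-(s * c)) + ((1 + (g a - m) / c) / 2) • (s * c) =
            s * (g a - m) := by
          simp only [smul_eq_mul]
          field_simp
          ring
        rw [h6] at h5
        refine h5.trans (le_of_eq ?_)
        rw [Real.cosh_eq, Real.sinh_eq]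
        simp only [smul_eq_mul]
        ring
      calc ∑ a, Real.exp (s * (g a - m)) ≤
          ∑ a, (Real.cosh (s * c) + (g a - m) / c * Real.sinh (s * c)) :=
            Finset.sum_le_sum fun a _ => h3 a
        _ = n * Real.cosh (s * c) := by
            rw [Finset.sum_add_distrib, Finset.sum_const, Finset.card_univ, nsmul_eq_mul,
              ← Finset.sum_mul, ← Finset.sum_div, hsum]
            simp [hnd]
        _ ≤ n * Real.exp (s ^ 2 * c ^ 2 / 2) := by
            refine mul_le_mul_of_nonneg_left ?_ hn.le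
            have := Real.cosh_le_exp_half_sq (s * c)
            rwa [mul_pow] at this
  calc ∑ a, Real.exp (s * g a) = ∑ a, Real.exp (s * m) * Real.exp (s * (g a - m)) := by
        refine Finset.sum_congr rfl fun a _ => ?_
        rw [← Real.exp_add]
        congr 1
        ring
    _ = Real.exp (s * m) * ∑ a, Real.exp (s * (g a - m)) := by rw [Finset.mul_sum]
    _ ≤ Real.exp (s * m) * (n * Real.exp (s ^ 2 * c ^ 2 / 2)) :=
        mul_le_mul_of_nonneg_left key (Real.exp_pos _).le
    _ = n * Real.exp (s * m + s ^ 2 * c ^ 2 / 2) := by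
        rw [Real.exp_add]
        ring

private theorem bd_fin {Ω : Type} [Fintype Ω] [Nonempty Ω] (s : ℝ) (n : ℕ) :
    ∀ (f : (Fin n → Ω) → ℝ) (c : Fin n → ℝ)
      (_ : ∀ x w w', (∀ y, y ≠ x → w y = w' y) → |f w - f w'| ≤ c x),
      ∑ w, Real.exp (s * f w) ≤ (Fintype.card Ω : ℝ) ^ n *
        Real.exp (s * ((∑ w, f w) / (Fintype.card Ω : ℝ) ^ n) + s ^ 2 * (∑ x, c x ^ 2) / 2) := by
  have hn : (0 : ℝ) < (Fintype.card Ω : ℝ) := by exact_mod_cast Fintype.card_pos
  induction n with
  | zero =>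
    intro f c _
    simp
  | succ n ih =>
    intro f c hc
    set N : ℝ := (Fintype.card Ω : ℝ) with hN
    let g : (Fin n → Ω) → ℝ := fun w => (∑ a, f (Fin.cons a w)) / N
    have hsplit : ∀ F : (Fin (n + 1) → Ω) → ℝ,
        ∑ w, F w = ∑ w : Fin n → Ω, ∑ a, F (Fin.cons a w) := by
      intro F
      rw [← (Fin.consEquiv (fun _ : Fin (n + 1) => Ω)).sum_comp, Fintype.sum_prod_type,
        Finset.sum_comm]
      rfl
    have h1 : ∀ w : Fin n → Ω, ∑ a, Real.exp (s * f (Fin.cons a w)) ≤
        N * Real.exp (s * g w + s ^ 2 * c 0 ^ 2 / 2) := by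
      intro w
      refine bd_one (fun a => f (Fin.cons a w)) (c 0) (fun a b => hc 0 _ _ ?_) s
      intro y hy
      obtain ⟨z, rfl⟩ := Fin.exists_succ_eq.2 hy
      simp
    have h2 := ih g (fun x => c x.succ) (by
      intro x w w' hw
      have e : g w - g w' = (∑ a, (f (Fin.cons a w) - f (Fin.cons a w'))) / N := by
        simp only [g]
        rw [Finset.sum_sub_distrib, sub_div]
      rw [e, abs_div, abs_of_pos hn, div_le_iff₀ hn]
      calc |∑ a, (f (Fin.cons a w) - f (Fin.cons a w'))| ≤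
            ∑ a, |f (Fin.cons a w) - f (Fin.cons a w')| := Finset.abs_sum_le_sum_abs _ _
        _ ≤ ∑ _a : Ω, c x.succ := by
            refine Finset.sum_le_sum fun a _ => hc x.succ _ _ ?_
            intro y hy
            rcases Fin.eq_zero_or_eq_succ y with rfl | ⟨z, rfl⟩
            · simp
            · simpa using hw z fun h => hy (by rw [h])
        _ = c x.succ * N := by
            rw [Finset.sum_const, Finset.card_univ, nsmul_eq_mul, ← hN, mul_comm])
    have hmean : (∑ w, g w) / N ^ n = (∑ w, f w) / N ^ (n + 1) := by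
      rw [hsplit f]
      simp only [g]
      rw [← Finset.sum_div, div_div, pow_succ, mul_comm N]
    have hcs : (∑ x, c x ^ 2) = c 0 ^ 2 + ∑ x : Fin n, c x.succ ^ 2 := Fin.sum_univ_succ _
    calc ∑ w, Real.exp (s * f w) = ∑ w : Fin n → Ω, ∑ a, Real.exp (s * f (Fin.cons a w)) :=
          hsplit fun w => Real.exp (s * f w)
      _ ≤ ∑ w : Fin n → Ω, N * Real.exp (s * g w + s ^ 2 * c 0 ^ 2 / 2) :=
          Finset.sum_le_sum fun w _ => h1 w
      _ = N * Real.exp (s ^ 2 * c 0 ^ 2 / 2) * ∑ w : Fin n → Ω, Real.exp (s * g w) := by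
          rw [Finset.mul_sum]
          refine Finset.sum_congr rfl fun w _ => ?_
          rw [Real.exp_add]
          ring
      _ ≤ N * Real.exp (s ^ 2 * c 0 ^ 2 / 2) * (N ^ n *
            Real.exp (s * ((∑ w, g w) / N ^ n) + s ^ 2 * (∑ x : Fin n, c x.succ ^ 2) / 2)) :=
          mul_le_mul_of_nonneg_left h2 (by positivity)
      _ = N ^ (n + 1) * Real.exp (s * ((∑ w, f w) / N ^ (n + 1)) +
            s ^ 2 * (∑ x, c x ^ 2) / 2) := by
          rw [hmean, hcs, show s * ((∑ w, f w) / N ^ (n + 1)) +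
            s ^ 2 * (c 0 ^ 2 + ∑ x : Fin n, c x.succ ^ 2) / 2 = s ^ 2 * c 0 ^ 2 / 2 +
            (s * ((∑ w, f w) / N ^ (n + 1)) + s ^ 2 * (∑ x : Fin n, c x.succ ^ 2) / 2) by ring,
            Real.exp_add (s ^ 2 * c 0 ^ 2 / 2), pow_succ]
          ring

/-- The exponential moments of a function with bounded differences. -/
theorem bd_exp {X Ω : Type} [Fintype X] [DecidableEq X] [Fintype Ω] [Nonempty Ω]
    (f : (X → Ω) → ℝ) (c : X → ℝ)
    (hc : ∀ x w w', (∀ y, y ≠ x → w y = w' y) → |f w - f w'| ≤ c x) (s : ℝ) :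
    ∑ w, Real.exp (s * f w) ≤ (Fintype.card (X → Ω) : ℝ) *
      Real.exp (s * ((∑ w, f w) / (Fintype.card (X → Ω) : ℝ)) + s ^ 2 * (∑ x, c x ^ 2) / 2) := by
  let e : X ≃ Fin (Fintype.card X) := Fintype.equivFin X
  let E : (X → Ω) ≃ (Fin (Fintype.card X) → Ω) := e.arrowCongr (Equiv.refl Ω)
  have h := bd_fin (Ω := Ω) s (Fintype.card X) (fun w => f (E.symm w)) (fun i => c (e.symm i)) (by
    intro i w w' hw
    refine hc (e.symm i) _ _ ?_
    intro y hy
    change w (e y) = w' (e y)
    exact hw (e y) fun h => hy (by rw [← h, e.symm_apply_apply]))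
  rw [E.symm.sum_comp (fun w => Real.exp (s * f w)), E.symm.sum_comp f,
    e.symm.sum_comp (fun x => c x ^ 2)] at h
  have hcard : (Fintype.card (X → Ω) : ℝ) = (Fintype.card Ω : ℝ) ^ (Fintype.card X) := by
    rw [Fintype.card_fun, Nat.cast_pow]
  rw [hcard]
  exact h

/-- **Bounded differences.** The proportion of the `w` with `f w ≥ mean + L` is at most
`exp (- L ^ 2 / (2 V))`, where `V` bounds the sum of the squares of the differences. -/
theorem bd_tail {X Ω : Type} [Fintype X] [DecidableEq X] [Fintype Ω] [Nonempty Ω]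
    (f : (X → Ω) → ℝ) (c : X → ℝ)
    (hc : ∀ x w w', (∀ y, y ≠ x → w y = w' y) → |f w - f w'| ≤ c x) {V : ℝ} (hV0 : 0 < V)
    (hV : ∑ x, c x ^ 2 ≤ V) {L : ℝ} (hL : 0 ≤ L) :
    (Nat.card {w // (∑ w, f w) / (Fintype.card (X → Ω) : ℝ) + L ≤ f w} : ℝ) ≤
      Real.exp (-(L ^ 2 / (2 * V))) * (Fintype.card (X → Ω) : ℝ) := by
  classical
  set M : ℝ := (Fintype.card (X → Ω) : ℝ) with hM
  have hM0 : 0 < M := by
    rw [hM]
    exact_mod_cast Fintype.card_pos
  set m : ℝ := (∑ w, f w) / M with hm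
  have h1 := bd_exp f c hc (L / V)
  rw [← hM, ← hm] at h1
  have h2 : ((Finset.univ.filter fun w => m + L ≤ f w).card : ℝ) * Real.exp (L / V * (m + L)) ≤
      ∑ w, Real.exp (L / V * f w) := by
    calc ((Finset.univ.filter fun w => m + L ≤ f w).card : ℝ) * Real.exp (L / V * (m + L)) =
        ∑ _w ∈ Finset.univ.filter fun w => m + L ≤ f w, Real.exp (L / V * (m + L)) := by
          rw [Finset.sum_const, nsmul_eq_mul]
      _ ≤ ∑ w ∈ Finset.univ.filter fun w => m + L ≤ f w, Real.exp (L / V * f w) := by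
          refine Finset.sum_le_sum fun w hw => Real.exp_le_exp.2 ?_
          exact mul_le_mul_of_nonneg_left (Finset.mem_filter.1 hw).2 (div_nonneg hL hV0.le)
      _ ≤ ∑ w, Real.exp (L / V * f w) :=
          Finset.sum_le_sum_of_subset_of_nonneg (Finset.filter_subset _ _)
            fun w _ _ => (Real.exp_pos _).le
  have h3 : L / V * m + (L / V) ^ 2 * (∑ x, c x ^ 2) / 2 ≤
      -(L ^ 2 / (2 * V)) + L / V * (m + L) := by
    have h4 : (L / V) ^ 2 * (∑ x, c x ^ 2) ≤ (L / V) ^ 2 * V :=
      mul_le_mul_of_nonneg_left hV (sq_nonneg _)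
    have h5 : (L / V) ^ 2 * V = L ^ 2 / V := by
      field_simp
    have h6 : L / V * (m + L) = L / V * m + L ^ 2 / V := by
      field_simp
    have h7 : L ^ 2 / (2 * V) = L ^ 2 / V / 2 := by
      field_simp
    rw [h6, h7]
    linarith
  have h4 : ((Finset.univ.filter fun w => m + L ≤ f w).card : ℝ) * Real.exp (L / V * (m + L)) ≤
      M * Real.exp (-(L ^ 2 / (2 * V))) * Real.exp (L / V * (m + L)) := by
    refine h2.trans (h1.trans ?_)
    rw [mul_assoc, ← Real.exp_add]
    exact mul_le_mul_of_nonneg_left (Real.exp_le_exp.2 h3) hM0.le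
  have h5 := le_of_mul_le_mul_right h4 (Real.exp_pos _)
  rw [Nat.card_eq_fintype_card, Fintype.card_subtype, mul_comm]
  exact h5

/-- **Bounded differences**, lower tail. -/
theorem bd_tail_le {X Ω : Type} [Fintype X] [DecidableEq X] [Fintype Ω] [Nonempty Ω]
    (f : (X → Ω) → ℝ) (c : X → ℝ)
    (hc : ∀ x w w', (∀ y, y ≠ x → w y = w' y) → |f w - f w'| ≤ c x) {V : ℝ} (hV0 : 0 < V)
    (hV : ∑ x, c x ^ 2 ≤ V) {L : ℝ} (hL : 0 ≤ L) :
    (Nat.card {w // f w ≤ (∑ w, f w) / (Fintype.card (X → Ω) : ℝ) - L} : ℝ) ≤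
      Real.exp (-(L ^ 2 / (2 * V))) * (Fintype.card (X → Ω) : ℝ) := by
  have h := bd_tail (fun w => -f w) c (by
    intro x w w' hw
    rw [show -f w - -f w' = -(f w - f w') by ring, abs_neg]
    exact hc x w w' hw) hV0 hV hL
  refine le_trans (le_of_eq ?_) h
  congr 1
  refine Nat.card_congr (Equiv.subtypeEquivRight fun w => ?_)
  rw [Finset.sum_neg_distrib, neg_div]
  constructor
  · intro h
    linarith
  · intro h
    linarith

/-- The union bound: if finitely many events have probabilities at most `p` and their number times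
`p` is less than one, then some outcome avoids all of them. -/
theorem bd_union {W : Type} [Fintype W] [Nonempty W] {T : Type} [Fintype T] (B : T → W → Prop)
    (p : T → ℝ) (hB : ∀ t, (Nat.card {w // B t w} : ℝ) ≤ p t * (Fintype.card W : ℝ))
    (hp : ∑ t, p t < 1) : ∃ w, ∀ t, ¬ B t w := by
  classical
  by_contra hno
  push Not at hno
  have hW : (0 : ℝ) < (Fintype.card W : ℝ) := by exact_mod_cast Fintype.card_pos
  have h1 : (Finset.univ : Finset W) ⊆ Finset.univ.biUnion fun t => Finset.univ.filter (B t) := by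
    intro w _
    obtain ⟨t, ht⟩ := hno w
    exact Finset.mem_biUnion.2 ⟨t, Finset.mem_univ _, Finset.mem_filter.2 ⟨Finset.mem_univ _, ht⟩⟩
  have h2 : (Fintype.card W : ℝ) ≤ ∑ t, ((Finset.univ.filter (B t)).card : ℝ) := by
    have h3 := (Finset.card_le_card h1).trans Finset.card_biUnion_le
    rw [Finset.card_univ] at h3
    exact_mod_cast h3
  have h4 : ∑ t, ((Finset.univ.filter (B t)).card : ℝ) ≤ ∑ t, p t * (Fintype.card W : ℝ) := by
    refine Finset.sum_le_sum fun t _ => ?_
    have := hB t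
    rwa [Nat.card_eq_fintype_card, Fintype.card_subtype] at this
  rw [← Finset.sum_mul] at h4
  nlinarith

end Pool.Agent.MPfe8e9bW2
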